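import Mathlib
import Pool.Agent.LCL.Defs
import Pool.Agent.LCL.Solve
import Pool.Agent.LCL.Unsolvable

set_option autoImplicit false

/-!
A locally checkable labelling problem that is solvable on every measured graph with the mass
transport principle but is not solvable on some measured graph.
-/

namespace Pool.Agent.Results.MP_bf3dd3_lc.SeparatingLCL

open Pool.Agent.LCL

/-- For every degree bound `Δ ≥ 4` there is a locally checkable labelling problem that is
solvable on every measured graph of maximum degree at most `Δ` with the mass transport principle,
and that is not solvable on some measured graph of maximum degree at most `Δ`. -/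
theorem result : ∀ Δ : ℕ, 4 ≤ Δ → ∃ P : Problem Δ,
    (∀ M : MeasuredGraph Δ, M.MassTransport → P.SolvableOn M) ∧
      ∃ M : MeasuredGraph Δ, ¬ P.SolvableOn M :=
  fun Δ hΔ => ⟨theProblem Δ, fun M hM => solvable_of_massTransport M hM, M0 Δ hΔ,
    not_solvable hΔ⟩

end Pool.Agent.Results.MP_bf3dd3_lc.SeparatingLCL
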